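import Pool.Agent.Helper54.PW.Defs

/-!
# PW-C: transitivity of the Galois group on the valuation rings above a given one
-/

set_option autoImplicit false
open scoped Pointwise

namespace Pool.Agent.Helper54.PW

namespace Transitive

variable {M F : Type} [Field M] [Field F] [Algebra M F]

theorem exists_denominator [Algebra.IsAlgebraic M F] (A : ValuationSubring F) (x : F)
    (hx : x ∈ A) :
    ∃ s : F, s ∉ A.nonunits ∧ ∀ W : ValuationSubring F,
      (∀ m : M, algebraMap M F m ∈ A → algebraMap M F m ∈ W) → s ∈ W ∧ s * x ∈ W := by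
  classical
  by_cases hx0 : x = 0
  · refine ⟨1, ?_, fun W _ => ⟨W.one_mem, by rw [hx0, mul_zero]; exact W.zero_mem⟩⟩
    rw [ValuationSubring.mem_nonunits_iff, map_one]
    exact lt_irrefl _
  set f := minpoly M x with hf
  have hint : IsIntegral M x := Algebra.IsIntegral.isIntegral x
  have hf0 : f ≠ 0 := minpoly.ne_zero hint
  have hroot : ∑ i ∈ f.support, algebraMap M F (f.coeff i) * x ^ i = 0 := by
    have := minpoly.aeval M x
    rw [← hf, Polynomial.aeval_eq_sum_range] at this
    rw [← this]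
    refine Finset.sum_subset_zero_on_sdiff ?_ ?_ ?_
    · intro i hi
      exact Finset.mem_range_succ_iff.2 (Polynomial.le_natDegree_of_mem_supp i hi)
    · intro i hi
      rw [Finset.mem_sdiff] at hi
      rw [Polynomial.notMem_support_iff.1 hi.2, zero_smul]
    · intro i _
      rw [Algebra.smul_def]
  have hne : f.support.Nonempty := Polynomial.support_nonempty.2 hf0
  obtain ⟨i₀, hi₀, hmax⟩ := Finset.exists_max_image f.support
    (fun i => A.valuation (algebraMap M F (f.coeff i))) hne
  have hc0 : f.coeff i₀ ≠ 0 := Polynomial.mem_support_iff.1 hi₀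
  have hc0' : algebraMap M F (f.coeff i₀) ≠ 0 := (map_ne_zero _).2 hc0
  have hv0 : A.valuation (algebraMap M F (f.coeff i₀)) ≠ 0 := (map_ne_zero _).2 hc0'
  have hvpos : 0 < A.valuation (algebraMap M F (f.coeff i₀)) := zero_lt_iff.2 hv0
  have hmem : i₀ ∈ f.support.filter (fun i => A.valuation (algebraMap M F (f.coeff i)) =
      A.valuation (algebraMap M F (f.coeff i₀))) := Finset.mem_filter.2 ⟨hi₀, rfl⟩
  obtain ⟨j, hj, hjmax⟩ := Finset.exists_max_image (f.support.filter
    (fun i => A.valuation (algebraMap M F (f.coeff i)) =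
      A.valuation (algebraMap M F (f.coeff i₀)))) id ⟨i₀, hmem⟩
  rw [Finset.mem_filter] at hj
  set a : ℕ → M := fun i => f.coeff i / f.coeff i₀ with ha
  have haA : ∀ i ∈ f.support, algebraMap M F (a i) ∈ A := by
    intro i hi
    rw [← ValuationSubring.valuation_le_one_iff, ha]
    simp only
    rw [map_div₀, map_div₀]
    exact div_le_one_of_le₀ (hmax i hi) zero_le
  have hroot' : ∑ i ∈ f.support, algebraMap M F (a i) * x ^ i = 0 := by
    have h1 : ∀ i ∈ f.support, algebraMap M F (a i) * x ^ i =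
        (algebraMap M F (f.coeff i₀))⁻¹ * (algebraMap M F (f.coeff i) * x ^ i) := by
      intro i _
      rw [ha]
      simp only
      rw [map_div₀, div_eq_mul_inv]; ring
    rw [Finset.sum_congr rfl h1, ← Finset.mul_sum, hroot, mul_zero]
  set y : F := ∑ i ∈ f.support.filter (fun i => j ≤ i), algebraMap M F (a i) * x ^ (i - j)
    with hy
  have hsplit : y * x ^ j + ∑ i ∈ f.support.filter (fun i => ¬ j ≤ i),
      algebraMap M F (a i) * x ^ i = 0 := by
    rw [← hroot', ← Finset.sum_filter_add_sum_filter_not f.support (fun i => j ≤ i), hy,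
      Finset.sum_mul]
    congr 1
    refine Finset.sum_congr rfl fun i hi => ?_
    rw [mul_assoc, ← pow_add, Nat.sub_add_cancel (Finset.mem_filter.1 hi).2]
  have E1 : y = - ∑ i ∈ f.support.filter (fun i => ¬ j ≤ i),
      algebraMap M F (a i) * (x⁻¹) ^ (j - i) := by
    have hxj : x ^ j ≠ 0 := pow_ne_zero _ hx0
    have h2 : y * x ^ j = (- ∑ i ∈ f.support.filter (fun i => ¬ j ≤ i),
        algebraMap M F (a i) * (x⁻¹) ^ (j - i)) * x ^ j := by
      rw [eq_neg_of_add_eq_zero_left hsplit, neg_mul, Finset.sum_mul]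
      congr 1
      refine Finset.sum_congr rfl fun i hi => ?_
      have hij : i ≤ j := le_of_lt (not_le.1 (Finset.mem_filter.1 hi).2)
      have h3 : x ^ j = x ^ (j - i) * x ^ i := by rw [← pow_add, Nat.sub_add_cancel hij]
      rw [h3, mul_assoc, ← mul_assoc ((x⁻¹) ^ (j - i)), ← mul_pow, inv_mul_cancel₀ hx0, one_pow,
        one_mul]
    exact mul_right_cancel₀ hxj h2
  have E2 : y * x = - ∑ i ∈ f.support.filter (fun i => ¬ j ≤ i),
      algebraMap M F (a i) * (x⁻¹) ^ (j - i - 1) := by
    rw [E1, neg_mul, Finset.sum_mul]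
    congr 1
    refine Finset.sum_congr rfl fun i hi => ?_
    have hij : i < j := not_le.1 (Finset.mem_filter.1 hi).2
    have h3 : j - i = (j - i - 1) + 1 := by omega
    conv_lhs => rw [h3]
    rw [pow_succ, mul_assoc, mul_assoc, inv_mul_cancel₀ hx0, mul_one]
  refine ⟨y, ?_, fun W hW => ?_⟩
  · -- `y` is a unit
    rw [ValuationSubring.mem_nonunits_iff, not_lt]
    have hjm : j ∈ f.support.filter (fun i => j ≤ i) := Finset.mem_filter.2 ⟨hj.1, le_refl _⟩
    have haj : A.valuation (algebraMap M F (a j)) = 1 := by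
      rw [ha]
      simp only
      rw [map_div₀, map_div₀, hj.2, div_self hv0]
    have h4 : A.valuation (∑ i ∈ (f.support.filter (fun i => j ≤ i)).erase j,
        algebraMap M F (a i) * x ^ (i - j)) < 1 := by
      refine Valuation.map_sum_lt _ one_ne_zero fun i hi => ?_
      have hi1 := Finset.mem_erase.1 hi
      have hi2 := Finset.mem_filter.1 hi1.2
      have hlt : A.valuation (algebraMap M F (f.coeff i)) <
          A.valuation (algebraMap M F (f.coeff i₀)) := by
        refine lt_of_le_of_ne (hmax i hi2.1) fun h => ?_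
        have := hjmax i (Finset.mem_filter.2 ⟨hi2.1, h⟩)
        simp only [id] at this
        exact hi1.1 (le_antisymm this hi2.2)
      rw [map_mul]
      have h5 : A.valuation (algebraMap M F (a i)) < 1 := by
        rw [ha]
        simp only
        rw [map_div₀, map_div₀]
        exact (div_lt_one₀ hvpos).2 hlt
      have h6 : A.valuation (x ^ (i - j)) ≤ 1 :=
        (ValuationSubring.valuation_le_one_iff _ _).2 (pow_mem hx _)
      exact mul_lt_one_of_lt_of_le h5 h6
    have h7 : y = algebraMap M F (a j) + ∑ i ∈ (f.support.filter (fun i => j ≤ i)).erase j,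
        algebraMap M F (a i) * x ^ (i - j) := by
      rw [hy, ← Finset.add_sum_erase _ _ hjm, Nat.sub_self, pow_zero, mul_one]
    rw [h7, Valuation.map_add_eq_of_lt_left _ (by rw [haj]; exact h4), haj]
  · rcases W.mem_or_inv_mem x with h | h
    · have h1 : y ∈ W := by
        rw [hy]
        exact sum_mem fun i hi => W.mul_mem _ _ (hW _ (haA i (Finset.mem_filter.1 hi).1))
          (pow_mem h _)
      exact ⟨h1, W.mul_mem _ _ h1 h⟩
    · constructor
      · rw [E1]
        exact W.neg_mem _ (sum_mem fun i hi => W.mul_mem _ _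
          (hW _ (haA i (Finset.mem_filter.1 hi).1)) (pow_mem h _))
      · rw [E2]
        exact W.neg_mem _ (sum_mem fun i hi => W.mul_mem _ _
          (hW _ (haA i (Finset.mem_filter.1 hi).1)) (pow_mem h _))

/-- the intersection of all the valuation subrings containing the trace of `A` -/
def core (M : Type) {F : Type} [Field M] [Field F] [Algebra M F] (A : ValuationSubring F) :
    Subring F where
  carrier := {x | ∀ W : ValuationSubring F,
    (∀ m : M, algebraMap M F m ∈ A → algebraMap M F m ∈ W) → x ∈ W}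
  mul_mem' hx hy W hW := W.mul_mem _ _ (hx W hW) (hy W hW)
  one_mem' W _ := W.one_mem
  add_mem' hx hy W hW := W.add_mem _ _ (hx W hW) (hy W hW)
  zero_mem' W _ := W.zero_mem
  neg_mem' hx W hW := W.neg_mem _ (hx W hW)

theorem core_stable (A : ValuationSubring F) (σ : F ≃ₐ[M] F) (x : F) (hx : x ∈ core M A) :
    σ x ∈ core M A := by
  intro W hW
  have := hx (W.comap (σ : F →+* F)) (fun m hm => by
    rw [ValuationSubring.mem_comap]
    change σ (algebraMap M F m) ∈ W
    rw [σ.commutes]
    exact hW m hm)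
  exact this

theorem nonunits_ideal_mem (A : ValuationSubring F) {x y : F} (hx : x ∈ A.nonunits) (hy : y ∈ A) :
    y * x ∈ A.nonunits := by
  rw [ValuationSubring.mem_nonunits_iff] at hx ⊢
  rw [map_mul, mul_comm]
  exact mul_lt_one_of_lt_of_le hx ((ValuationSubring.valuation_le_one_iff _ _).2 hy)

/-- the trace of the maximal ideal on the core -/
def pr (A B : ValuationSubring F) (σ : F ≃ₐ[M] F)
    (hB : ∀ m : M, algebraMap M F m ∈ A → algebraMap M F m ∈ B) : Ideal (core M A) where
  carrier := {c | σ (c : F) ∈ B.nonunits}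
  add_mem' := by
    intro a b ha hb
    change σ ((a : F) + (b : F)) ∈ B.nonunits
    rw [map_add, ValuationSubring.mem_nonunits_iff]
    exact Valuation.map_add_lt _ ((ValuationSubring.mem_nonunits_iff _).1 ha)
      ((ValuationSubring.mem_nonunits_iff _).1 hb)
  zero_mem' := by
    change σ ((0 : core M A) : F) ∈ B.nonunits
    rw [ZeroMemClass.coe_zero, map_zero, ValuationSubring.mem_nonunits_iff, map_zero]
    exact zero_lt_one
  smul_mem' := by
    intro c x hx
    change σ ((c : F) * (x : F)) ∈ B.nonunits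
    rw [map_mul]
    exact nonunits_ideal_mem B hx (core_stable A σ _ c.2 B hB)

theorem pr_prime (A B : ValuationSubring F) (σ : F ≃ₐ[M] F)
    (hB : ∀ m : M, algebraMap M F m ∈ A → algebraMap M F m ∈ B) : (pr A B σ hB).IsPrime := by
  constructor
  · rw [Ne, Ideal.eq_top_iff_one]
    intro h
    have h1 : σ ((1 : core M A) : F) ∈ B.nonunits := h
    rw [OneMemClass.coe_one, map_one, ValuationSubring.mem_nonunits_iff, map_one] at h1
    exact lt_irrefl _ h1
  · intro a b hab
    by_contra hcon
    rw [not_or] at hcon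
    have h1 : ¬ (B.valuation (σ (a : F)) < 1) := fun h =>
      hcon.1 ((ValuationSubring.mem_nonunits_iff _).2 h)
    have h2 : ¬ (B.valuation (σ (b : F)) < 1) := fun h =>
      hcon.2 ((ValuationSubring.mem_nonunits_iff _).2 h)
    have h3 : B.valuation (σ ((a : F) * (b : F))) < 1 := (ValuationSubring.mem_nonunits_iff _).1 hab
    rw [map_mul, map_mul] at h3
    have h4 : B.valuation (σ (a : F)) = 1 := le_antisymm
      ((ValuationSubring.valuation_le_one_iff _ _).2 (core_stable A σ _ a.2 B hB)) (not_lt.1 h1)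
    have h5 : B.valuation (σ (b : F)) = 1 := le_antisymm
      ((ValuationSubring.valuation_le_one_iff _ _).2 (core_stable A σ _ b.2 B hB)) (not_lt.1 h2)
    rw [h4, h5, mul_one] at h3
    exact lt_irrefl _ h3

theorem one_side [FiniteDimensional M F] [IsGalois M F] (A A' : ValuationSubring F)
    (h : ∀ m : M, algebraMap M F m ∈ A ↔ algebraMap M F m ∈ A') :
    ∃ σ : F ≃ₐ[M] F, ∀ x : F, σ x ∈ A → x ∈ A' := by
  classical
  have hA : ∀ m : M, algebraMap M F m ∈ A → algebraMap M F m ∈ A := fun _ h => h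
  have hA' : ∀ m : M, algebraMap M F m ∈ A → algebraMap M F m ∈ A' := fun m => (h m).1
  have key : ((pr A A' (1 : F ≃ₐ[M] F) hA' : Ideal (core M A)) : Set (core M A)) ⊆
      ⋃ σ ∈ ((Finset.univ : Finset (F ≃ₐ[M] F)) : Set (F ≃ₐ[M] F)),
        ((pr A A σ hA : Ideal (core M A)) : Set (core M A)) := by
    intro c hc
    have hc' : (c : F) ∈ A'.nonunits := hc
    -- the norm
    have hN : ∃ m : M, algebraMap M F m = ∏ σ : F ≃ₐ[M] F, σ (c : F) := by
      have hfix : ∀ τ : F ≃ₐ[M] F, τ (∏ σ : F ≃ₐ[M] F, σ (c : F)) = ∏ σ : F ≃ₐ[M] F, σ (c : F) := by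
        intro τ
        rw [map_prod]
        exact Fintype.prod_equiv (Equiv.mulLeft τ) _ _ (fun σ => rfl)
      exact (IsGalois.mem_range_algebraMap_iff_fixed _).2 hfix
    obtain ⟨m, hm⟩ := hN
    have h1 : algebraMap M F m ∈ A'.nonunits := by
      rw [hm, ← Finset.prod_erase_mul _ _ (Finset.mem_univ (1 : F ≃ₐ[M] F))]
      exact nonunits_ideal_mem A' hc' (prod_mem fun σ _ => core_stable A σ _ c.2 A' hA')
    have h2 : algebraMap M F m ∈ A.nonunits := by
      rw [ValuationSubring.mem_nonunits_iff_or] at h1 ⊢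
      rcases h1 with h1 | h1
      · exact Or.inl h1
      · refine Or.inr fun h3 => h1 ?_
        rw [← map_inv₀] at h3 ⊢
        exact (h _).1 h3
    by_contra hcon
    rw [Set.mem_iUnion₂] at hcon
    push Not at hcon
    have h3 : ∀ σ : F ≃ₐ[M] F, A.valuation (σ (c : F)) = 1 := by
      intro σ
      refine le_antisymm ((ValuationSubring.valuation_le_one_iff _ _).2
        (core_stable A σ _ c.2 A hA)) (not_lt.1 fun h4 => ?_)
      exact hcon σ (by simp) ((ValuationSubring.mem_nonunits_iff _).2 h4)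
    rw [ValuationSubring.mem_nonunits_iff, hm, map_prod,
      Finset.prod_eq_one (fun σ _ => h3 σ)] at h2
    exact lt_irrefl _ h2
  rw [Ideal.subset_union_prime 1 1 (fun σ _ _ _ => pr_prime A A σ hA)] at key
  obtain ⟨σ, -, hσ⟩ := key
  refine ⟨σ, fun x hx => ?_⟩
  obtain ⟨s, hs, hsC⟩ := exists_denominator (M := M) (A.comap (σ : F →+* F)) x hx
  have hcond : ∀ m : M, algebraMap M F m ∈ A.comap (σ : F →+* F) ↔ algebraMap M F m ∈ A := by
    intro m
    rw [ValuationSubring.mem_comap]
    change σ (algebraMap M F m) ∈ A ↔ _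
    rw [σ.commutes]
  have hsc : s ∈ core M A := fun W hW => (hsC W fun m hm => hW m ((hcond m).1 hm)).1
  have hsx : s * x ∈ core M A := fun W hW => (hsC W fun m hm => hW m ((hcond m).1 hm)).2
  have h1 : (⟨s, hsc⟩ : core M A) ∉ pr A A σ hA := by
    intro h2
    have h3 : σ s ∈ A.nonunits := h2
    apply hs
    rw [ValuationSubring.mem_nonunits_iff_or] at h3 ⊢
    rcases h3 with h3 | h3
    · exact Or.inl ((map_eq_zero σ).1 h3)
    · refine Or.inr fun h4 => h3 ?_
      rw [← map_inv₀]
      exact h4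
  have h2 : (⟨s, hsc⟩ : core M A) ∉ pr A A' (1 : F ≃ₐ[M] F) hA' := fun h3 => h1 (hσ h3)
  have h3 : s ∉ A'.nonunits := fun h4 => h2 h4
  rw [ValuationSubring.mem_nonunits_iff_or] at h3
  push Not at h3
  have h4 : s⁻¹ * (s * x) ∈ A' := A'.mul_mem _ _ h3.2 (hsx A' hA')
  rwa [inv_mul_cancel_left₀ h3.1] at h4

theorem main [FiniteDimensional M F] [IsGalois M F] (A A' : ValuationSubring F)
    (h : A.comap (algebraMap M F) = A'.comap (algebraMap M F)) :
    ∃ σ : F ≃ₐ[M] F, σ • A = A' := by
  have h' : ∀ m : M, algebraMap M F m ∈ A ↔ algebraMap M F m ∈ A' := by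
    intro m
    rw [← ValuationSubring.mem_comap, h, ValuationSubring.mem_comap]
  obtain ⟨σ, hσ⟩ := one_side A A' h'
  obtain ⟨τ, hτ⟩ := one_side A' A (fun m => (h' m).symm)
  have h1 : ∀ x : F, (τ * σ) x ∈ A' → x ∈ A' := fun x hx => hσ x (hτ (σ x) hx)
  have h2 : ∀ (n : ℕ) (x : F), ((τ * σ) ^ n) x ∈ A' → x ∈ A' := by
    intro n
    induction n with
    | zero => intro x hx; exact hx
    | succ n ih => intro x hx; exact h1 x (ih _ hx)
  refine ⟨σ⁻¹, ?_⟩
  ext x
  rw [ValuationSubring.mem_inv_pointwise_smul_iff]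
  refine ⟨fun hx => hσ x hx, fun hx => hτ (σ x) ?_⟩
  change (τ * σ) x ∈ A'
  apply h2 (orderOf (τ * σ) - 1)
  have h3 : ((τ * σ) ^ (orderOf (τ * σ) - 1)) ((τ * σ) x) =
      ((τ * σ) ^ (orderOf (τ * σ) - 1 + 1)) x := by
    rw [pow_succ]; rfl
  rw [h3, Nat.sub_add_cancel (orderOf_pos _), pow_orderOf_eq_one]
  exact hx

end Transitive

/-! ## PW-C: transitivity on places -/
theorem places_transitive {k M F : Type} [Field k] [IsAlgClosed k] [Field M] [Field F]
    [Algebra k F] [Algebra k M] [Algebra M F] [IsScalarTower k M F] [FiniteDimensional M F]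
    [IsGalois M F] (hF : FF k F) (A A' : ValuationSubring F) (hA : IsPlace k A)
    (hA' : IsPlace k A') (h : A.comap (algebraMap M F) = A'.comap (algebraMap M F)) :
    ∃ σ : F ≃ₐ[M] F, σ • A = A' := Transitive.main A A' h

end Pool.Agent.Helper54.PW
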