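import Pool.Agent.Helper54.PW.Defs

/-!
# PW-D: an integral element of trace one
-/

set_option autoImplicit false
open scoped Pointwise

namespace Pool.Agent.Helper54.PW

namespace TraceOne

section

variable {R K L : Type} [CommRing R] [IsDomain R] [IsDedekindDomain R] [Field K] [Field L]
  [Algebra R K] [IsFractionRing R K] [Algebra K L] [Algebra R L] [IsScalarTower R K L]
  [FiniteDimensional K L] [IsGalois K L]

/-- the localization of the integral closure at a prime ideal, as a subset of the field -/
def loc (q : Ideal (integralClosure R L)) : Set L :=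
  {x | ∃ s c : integralClosure R L, s ∉ q ∧ (s : L) * x = c}

include K in
theorem loc_total (q : Ideal (integralClosure R L)) [q.IsPrime] (hq : q ≠ ⊥) (x : L) :
    x ∈ loc q ∨ x⁻¹ ∈ loc q := by
  haveI := integralClosure.isDedekindDomain R K L
  haveI := integralClosure.isFractionRing_of_finite_extension (A := R) K L
  haveI hD : IsDiscreteValuationRing (Localization.AtPrime q) :=
    IsLocalization.AtPrime.isDiscreteValuationRing_of_dedekind_domain _ hq _
  obtain ⟨a, b, hb, rfl⟩ := IsFractionRing.div_surjective (A := integralClosure R L) x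
  have hb0 : b ≠ 0 := nonZeroDivisors.ne_zero hb
  have key : ∀ a b : integralClosure R L, b ≠ 0 →
      algebraMap (integralClosure R L) (Localization.AtPrime q) b ∣
        algebraMap (integralClosure R L) (Localization.AtPrime q) a →
      (algebraMap (integralClosure R L) L a) / (algebraMap (integralClosure R L) L b) ∈
        loc q := by
    rintro a b hb0 ⟨c, hc⟩
    obtain ⟨c, s, rfl⟩ := IsLocalization.exists_mk'_eq q.primeCompl c
    have h1 : algebraMap (integralClosure R L) (Localization.AtPrime q) (a * s) =
        algebraMap (integralClosure R L) (Localization.AtPrime q) (b * c) := by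
      rw [map_mul, map_mul, hc, mul_assoc, IsLocalization.mk'_spec]
    have h2 : a * s = b * c :=
      IsLocalization.injective (Localization.AtPrime q) q.primeCompl_le_nonZeroDivisors h1
    refine ⟨s, c, s.2, ?_⟩
    have h3 : (a : L) * (s : integralClosure R L) = b * c := congrArg Subtype.val h2
    have hb1 : (b : L) ≠ 0 := fun h => hb0 (Subtype.ext h)
    change ((s : integralClosure R L) : L) * ((a : L) / (b : L)) = c
    field_simp
    linear_combination h3
  rcases ValuationRing.dvd_total (algebraMap (integralClosure R L) (Localization.AtPrime q) b)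
    (algebraMap (integralClosure R L) (Localization.AtPrime q) a) with h | h
  · left
    exact key a b hb0 h
  · by_cases ha0 : a = 0
    · left
      rw [ha0, map_zero, zero_div]
      exact ⟨1, 0, fun h => Ideal.IsPrime.ne_top ‹_› ((Ideal.eq_top_iff_one q).2 h), by simp⟩
    · right
      rw [inv_div]
      exact key b a ha0 h

/-- the valuation ring of a prime ideal of the integral closure -/
def vr (hK : ∀ x : L, ∀ q : Ideal (integralClosure R L), q.IsPrime → q ≠ ⊥ →
    x ∈ loc q ∨ x⁻¹ ∈ loc q) (q : Ideal (integralClosure R L)) (hp : q.IsPrime) (hq : q ≠ ⊥) :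
    ValuationSubring L where
  carrier := loc q
  mul_mem' := by
    rintro x y ⟨s, c, hs, h⟩ ⟨s', c', hs', h'⟩
    refine ⟨s * s', c * c', fun h1 => ?_, ?_⟩
    · exact (hp.mem_or_mem h1).elim hs hs'
    · change ((s : L) * s') * (x * y) = (c : L) * c'
      rw [← h, ← h']; ring
  one_mem' := ⟨1, 1, fun h => hp.ne_top ((Ideal.eq_top_iff_one q).2 h), by simp⟩
  add_mem' := by
    rintro x y ⟨s, c, hs, h⟩ ⟨s', c', hs', h'⟩
    refine ⟨s * s', c * s' + c' * s, fun h1 => ?_, ?_⟩
    · exact (hp.mem_or_mem h1).elim hs hs'
    · change ((s : L) * s') * (x + y) = (c : L) * s' + c' * s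
      rw [← h, ← h']; ring
  zero_mem' := ⟨1, 0, fun h => hp.ne_top ((Ideal.eq_top_iff_one q).2 h), by simp⟩
  neg_mem' := by
    rintro x ⟨s, c, hs, h⟩
    refine ⟨s, -c, hs, ?_⟩
    change (s : L) * (-x) = -(c : L)
    rw [← h]; ring
  mem_or_inv_mem' x := hK x q hp hq

/-- an automorphism on the integral closure -/
def aut (σ : L ≃ₐ[K] L) (b : integralClosure R L) : integralClosure R L :=
  ⟨σ b, by
    have h : IsIntegral R (b : L) := b.2
    exact h.map (σ.toAlgHom.restrictScalars R)⟩

theorem aut_mul (σ : L ≃ₐ[K] L) (b c : integralClosure R L) :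
    aut σ (b * c) = aut σ b * aut σ c := Subtype.ext (map_mul σ _ _)

theorem aut_one (σ : L ≃ₐ[K] L) : aut (R := R) σ 1 = 1 := Subtype.ext (map_one σ)

theorem main (hR : ∀ m : Ideal R, m.IsMaximal → m ≠ ⊥)
    (hunr : ∀ A : ValuationSubring L, A ≠ ⊤ → (∀ r : R, algebraMap R L r ∈ A) →
      ∀ σ : L ≃ₐ[K] L, σ • A = A → σ = 1) :
    ∃ b : L, IsIntegral R b ∧ Algebra.trace K L b = 1 := by
  classical
  -- the trace ideal
  let I : Ideal R :=
    { carrier := {r | ∃ b : L, IsIntegral R b ∧ Algebra.trace K L b = algebraMap R K r}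
      add_mem' := by
        rintro r s ⟨b, hb, h⟩ ⟨c, hc, h'⟩
        exact ⟨b + c, hb.add hc, by rw [map_add, map_add, h, h']⟩
      zero_mem' := ⟨0, isIntegral_zero, by rw [map_zero, map_zero]⟩
      smul_mem' := by
        rintro r s ⟨b, hb, h⟩
        refine ⟨r • b, hb.smul r, ?_⟩
        have : r • b = (algebraMap R K r) • b := by
          rw [algebraMap_smul]
        rw [this, map_smul, h, smul_eq_mul, smul_eq_mul, map_mul] }
  by_cases hI : I = ⊤
  · have h1 : (1 : R) ∈ I := by rw [hI]; trivial
    obtain ⟨b, hb, h⟩ := h1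
    exact ⟨b, hb, by rw [h, map_one]⟩
  exfalso
  obtain ⟨m, hm, hIm⟩ := Ideal.exists_le_maximal I hI
  have hinj : Function.Injective (algebraMap R L) := by
    rw [IsScalarTower.algebraMap_eq R K L]
    exact (algebraMap K L).injective.comp (IsFractionRing.injective R K)
  have hinjB : Function.Injective (algebraMap R (integralClosure R L)) := by
    intro r s h
    exact hinj (congrArg Subtype.val h)
  haveI : Algebra.IsIntegral R (integralClosure R L) := inferInstance
  obtain ⟨q, hqmax, hqm⟩ := Ideal.exists_ideal_over_maximal_of_isIntegral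
    (S := integralClosure R L) m (by
      rw [(RingHom.injective_iff_ker_eq_bot _).1 hinjB]
      exact bot_le)
  have hqp : q.IsPrime := hqmax.isPrime
  obtain ⟨t, htm, ht0⟩ := Submodule.exists_mem_ne_zero_of_ne_bot (hR m hm)
  have htq : algebraMap R (integralClosure R L) t ∈ q := by
    rw [← hqm] at htm
    exact htm
  have hq0 : q ≠ ⊥ := by
    intro h
    rw [h, Ideal.mem_bot] at htq
    exact ht0 (hinjB (by rw [htq, map_zero]))
  have hK : ∀ x : L, ∀ q : Ideal (integralClosure R L), q.IsPrime → q ≠ ⊥ →
      x ∈ loc q ∨ x⁻¹ ∈ loc q := by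
    intro x q hp hq
    exact loc_total (K := K) q hq x
  set A : ValuationSubring L := vr hK q hqp hq0 with hA
  have hmemA : ∀ x, x ∈ A ↔ x ∈ loc q := fun x => Iff.rfl
  have hAtop : A ≠ ⊤ := by
    intro h
    have h1 : (algebraMap R L t)⁻¹ ∈ A := by rw [h]; trivial
    obtain ⟨s, c, hs, h2⟩ := (hmemA _).1 h1
    apply hs
    have ht1 : algebraMap R L t ≠ 0 := fun h3 => ht0 (hinj (by rw [h3, map_zero]))
    have h3 : s = algebraMap R (integralClosure R L) t * c := by
      apply Subtype.ext
      change (s : L) = algebraMap R L t * c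
      rw [← h2]
      field_simp
    rw [h3]
    exact q.mul_mem_right _ htq
  have hAR : ∀ r : R, algebraMap R L r ∈ A := by
    intro r
    refine (hmemA _).2 ⟨1, algebraMap R (integralClosure R L) r,
      fun h => hqp.ne_top ((Ideal.eq_top_iff_one q).2 h), ?_⟩
    change (1 : L) * algebraMap R L r = algebraMap R L r
    rw [one_mul]
  -- an automorphism fixing `q` is trivial
  have hfix : ∀ σ : L ≃ₐ[K] L, (∀ b : integralClosure R L, b ∈ q ↔ aut σ b ∈ q) → σ = 1 := by
    intro σ hσ
    apply hunr A hAtop hAR σ
    have hback : ∀ b : integralClosure R L, aut σ (aut σ⁻¹ b) = b := by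
      intro b
      apply Subtype.ext
      change σ (σ⁻¹ (b : L)) = b
      exact σ.apply_symm_apply _
    ext x
    rw [ValuationSubring.mem_smul_pointwise_iff_exists]
    constructor
    · rintro ⟨y, hy, rfl⟩
      obtain ⟨s, c, hs, h⟩ := (hmemA _).1 hy
      refine (hmemA _).2 ⟨aut σ s, aut σ c, fun h1 => hs ((hσ s).2 h1), ?_⟩
      change σ s * σ y = σ c
      rw [← map_mul, h]
    · intro hx
      obtain ⟨s, c, hs, h⟩ := (hmemA _).1 hx
      refine ⟨σ⁻¹ x, (hmemA _).2 ⟨aut σ⁻¹ s, aut σ⁻¹ c, fun h1 => hs ?_, ?_⟩, ?_⟩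
      · have := (hσ _).1 h1
        rwa [hback] at this
      · change σ⁻¹ s * σ⁻¹ x = σ⁻¹ c
        rw [← map_mul, h]
      · change σ (σ⁻¹ x) = x
        exact σ.apply_symm_apply _
  -- elements outside of `q`
  have hb : ∀ σ : L ≃ₐ[K] L, ∃ b : integralClosure R L, b ∉ q ∧ (σ ≠ 1 → aut σ b ∈ q) := by
    intro σ
    by_cases hσ : σ = 1
    · exact ⟨1, fun h => hqp.ne_top ((Ideal.eq_top_iff_one q).2 h), fun h => absurd hσ h⟩
    -- the ideal `σ⁻¹ q`
    let q' : Ideal (integralClosure R L) :=
      { carrier := {b | aut σ b ∈ q}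
        add_mem' := by
          intro a b ha hb
          have : aut σ (a + b) = aut σ a + aut σ b := Subtype.ext (map_add σ _ _)
          change aut σ (a + b) ∈ q
          rw [this]
          exact q.add_mem ha hb
        zero_mem' := by
          have : aut (R := R) σ 0 = 0 := Subtype.ext (map_zero σ)
          change aut σ 0 ∈ q
          rw [this]
          exact q.zero_mem
        smul_mem' := by
          intro a b hb
          change aut σ (a * b) ∈ q
          rw [aut_mul]
          exact q.mul_mem_left _ hb }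
    by_contra hcon
    push Not at hcon
    have hle : q' ≤ q := by
      intro b hb
      by_contra hbq
      exact (hcon b hbq).2 hb
    have hback : ∀ b : integralClosure R L, aut σ (aut σ⁻¹ b) = b := by
      intro b
      apply Subtype.ext
      change σ (σ⁻¹ (b : L)) = b
      exact σ.apply_symm_apply _
    have hback' : ∀ b : integralClosure R L, aut σ⁻¹ (aut σ b) = b := by
      intro b
      apply Subtype.ext
      change σ⁻¹ (σ (b : L)) = b
      exact σ.symm_apply_apply _
    have hmax' : q'.IsMaximal := by
      rw [Ideal.isMaximal_iff]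
      constructor
      · intro h
        have h1 : aut (R := R) σ 1 ∈ q := h
        rw [aut_one] at h1
        exact hqp.ne_top ((Ideal.eq_top_iff_one q).2 h1)
      · intro J x hJ hx hxJ
        -- the image of `J`
        let J' : Ideal (integralClosure R L) :=
          { carrier := {b | aut σ⁻¹ b ∈ J}
            add_mem' := by
              intro a b ha hb
              have : aut σ⁻¹ (a + b) = aut σ⁻¹ a + aut σ⁻¹ b := Subtype.ext (map_add σ⁻¹ _ _)
              change aut σ⁻¹ (a + b) ∈ J
              rw [this]
              exact J.add_mem ha hb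
            zero_mem' := by
              have : aut (R := R) σ⁻¹ 0 = 0 := Subtype.ext (map_zero σ⁻¹)
              change aut σ⁻¹ 0 ∈ J
              rw [this]
              exact J.zero_mem
            smul_mem' := by
              intro a b hb
              change aut σ⁻¹ (a * b) ∈ J
              rw [aut_mul]
              exact J.mul_mem_left _ hb }
        have hqJ : q ≤ J' := by
          intro b hb
          apply hJ
          change aut σ (aut σ⁻¹ b) ∈ q
          rw [hback]
          exact hb
        have h1 := (Ideal.isMaximal_iff.1 hqmax).2 J' (aut σ x) hqJ hx (by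
          change aut σ⁻¹ (aut σ x) ∈ J
          rw [hback']
          exact hxJ)
        have h2 : aut (R := R) σ⁻¹ 1 ∈ J := h1
        rwa [aut_one] at h2
    have heq : q' = q := hmax'.eq_of_le hqp.ne_top hle
    apply hσ
    apply hfix σ
    intro b
    rw [← heq]
    change aut σ b ∈ q ↔ aut σ b ∈ q'
    rw [heq]
  choose b hbq hbσ using hb
  set c : integralClosure R L := ∏ σ : L ≃ₐ[K] L, b σ with hc
  have hcq : c ∉ q := by
    rw [hc, hqp.prod_mem_iff]
    rintro ⟨σ, -, h⟩
    exact hbq σ h
  have hcσ : ∀ σ : L ≃ₐ[K] L, σ ≠ 1 → aut σ c ∈ q := by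
    intro σ hσ
    have h1 : c = b σ * ∏ τ ∈ Finset.univ.erase σ, b τ := by
      rw [hc, Finset.mul_prod_erase _ _ (Finset.mem_univ σ)]
    rw [h1, aut_mul]
    exact q.mul_mem_right _ (hbσ σ hσ)
  -- the trace of `c`
  have hint : IsIntegral R (c : L) := c.2
  have htr := Algebra.isIntegral_trace (L := K) (F := L) hint
  obtain ⟨r, hr⟩ := IsIntegrallyClosed.isIntegral_iff.1 htr
  have hrI : r ∈ I := ⟨c, hint, hr.symm⟩
  have hrq : algebraMap R (integralClosure R L) r ∈ q := by
    have := hIm hrI
    rw [← hqm] at this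
    exact this
  have hsum : algebraMap R (integralClosure R L) r = ∑ σ : L ≃ₐ[K] L, aut σ c := by
    apply Subtype.ext
    have h1 := trace_eq_sum_automorphisms (K := K) (L := L) (c : L)
    rw [← hr, ← IsScalarTower.algebraMap_apply] at h1
    have h2 : ((∑ σ : L ≃ₐ[K] L, aut σ c : integralClosure R L) : L) =
        ∑ σ : L ≃ₐ[K] L, σ (c : L) := by
      rw [AddSubmonoidClass.coe_finsetSum]
      rfl
    rw [h2, ← h1]
    rfl
  have h1 : aut (R := R) (1 : L ≃ₐ[K] L) c ∈ q := by
    rw [hsum, ← Finset.add_sum_erase _ _ (Finset.mem_univ (1 : L ≃ₐ[K] L))] at hrq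
    refine (Ideal.add_mem_iff_left q ?_).1 hrq
    exact q.sum_mem (fun σ hσ => hcσ σ (Finset.ne_of_mem_erase hσ))
  exact hcq h1

end

end TraceOne

theorem exists_trace_one {k L : Type} [Field k] [IsAlgClosed k] [Field L] [Algebra (RatFunc k) L]
    [FiniteDimensional (RatFunc k) L] [IsGalois (RatFunc k) L]
    (hunr : ∀ A : ValuationSubring L, A ≠ ⊤ →
      (∀ c : k, algebraMap (RatFunc k) L (algebraMap k (RatFunc k) c) ∈ A) → tX k L ∈ A →
      ∀ σ : L ≃ₐ[RatFunc k] L, σ • A = A → σ = 1) :
    ∃ b : L, (pk k L).IsIntegralElem b ∧ Algebra.trace (RatFunc k) L b = 1 := by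
  letI : Algebra (Polynomial k) L := (pk k L).toAlgebra
  haveI : IsScalarTower (Polynomial k) (RatFunc k) L := IsScalarTower.of_algebraMap_eq' rfl
  apply TraceOne.main (R := Polynomial k) (K := RatFunc k) (L := L)
  · intro m hm h0
    have := Ring.ne_bot_of_isMaximal_of_not_isField hm (Polynomial.not_isField k)
    exact this h0
  · intro A hA hR σ hσ
    apply hunr A hA _ _ σ hσ
    · intro c
      have h1 := hR (Polynomial.C c)
      have h2 : algebraMap (Polynomial k) L (Polynomial.C c) =
          algebraMap (RatFunc k) L (algebraMap k (RatFunc k) c) := by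
        change (algebraMap (RatFunc k) L) (algebraMap (Polynomial k) (RatFunc k)
          (Polynomial.C c)) = _
        congr 1
      rwa [h2] at h1
    · have h1 := hR Polynomial.X
      have h2 : algebraMap (Polynomial k) L Polynomial.X = tX k L := by
        change (algebraMap (RatFunc k) L) (algebraMap (Polynomial k) (RatFunc k)
          Polynomial.X) = _
        rw [RatFunc.algebraMap_X]
        rfl
      rwa [h2] at h1

end Pool.Agent.Helper54.PW
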